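import Mathlib

open Finset Function

namespace Pool.Agent.P.MP_b4ec01_an

universe u

variable {κ : Type u}

/-- finite-sum description of the ball -/
def InB (x : κ → ℝ) : Prop := ∀ F : Finset κ, ∑ i ∈ F, |x i| ≤ 1

/-- weak form of a Delta-system with root positions `σ` and root values `e0` -/
def Fresh {D : Type} (Q : κ → (D → κ) → Prop) (σ : Finset D) (e0 : D → κ) : Prop :=
  ∀ Z A : Finset κ, ∃ t, t ∉ A ∧ ∃ e, Q t e ∧ (∀ d ∈ σ, e d = e0 d) ∧ ∀ d, d ∉ σ → e d ∉ Z

theorem Fresh.congr {D : Type} {Q : κ → (D → κ) → Prop} {σ : Finset D} {e0 e1 : D → κ}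
    (h : Fresh Q σ e0) (he : ∀ d ∈ σ, e1 d = e0 d) : Fresh Q σ e1 := by
  intro Z A
  obtain ⟨t, ht, e, hQ, h1, h2⟩ := h Z A
  exact ⟨t, ht, e, hQ, fun d hd => (h1 d hd).trans (he d hd).symm, h2⟩

theorem exists_fresh {D : Type} [Fintype D] (Q : κ → (D → κ) → Prop)
    (h : ¬ Set.Countable {t | ∃ e, Q t e}) : ∃ σ e0, Fresh Q σ e0 := by
  classical
  have hf : ∀ t : κ, ∃ e : D → κ, (∃ e, Q t e) → Q t e := by
    intro t
    by_cases ht : ∃ e, Q t e
    · obtain ⟨e, he⟩ := ht
      exact ⟨e, fun _ => he⟩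
    · exact ⟨fun _ => t, fun h => absurd h ht⟩
  choose f hf using hf
  let good : Finset D → Prop := fun σ =>
    ∃ e0 : D → κ, ¬ Set.Countable {t | (∃ e, Q t e) ∧ ∀ d ∈ σ, f t d = e0 d}
  have hne : (univ.filter good).Nonempty := by
    have : {t | ∃ e, Q t e}.Nonempty := by
      by_contra hn
      rw [Set.not_nonempty_iff_eq_empty] at hn
      exact h (hn ▸ Set.countable_empty)
    obtain ⟨t0, _⟩ := this
    refine ⟨∅, mem_filter.2 ⟨mem_univ _, fun _ => t0, ?_⟩⟩
    simpa using h
  obtain ⟨σ, hσ, hmax⟩ := exists_max_image (univ.filter good) Finset.card hne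
  obtain ⟨e0, he0⟩ := (mem_filter.1 hσ).2
  refine ⟨σ, e0, fun Z A => ?_⟩
  set J := {t | (∃ e, Q t e) ∧ ∀ d ∈ σ, f t d = e0 d} with hJ
  have hbad : ∀ d, d ∉ σ → ∀ α : κ, Set.Countable {t | t ∈ J ∧ f t d = α} := by
    intro d hd α
    by_contra hc
    have hg : good (insert d σ) := by
      refine ⟨Function.update e0 d α, fun hc' => hc (hc'.mono ?_)⟩
      rintro t ⟨⟨h1, h2⟩, h3⟩
      refine ⟨h1, fun d' hd' => ?_⟩
      rcases mem_insert.1 hd' with rfl | hd'
      · simp [h3]
      · have : d' ≠ d := fun h => hd (h ▸ hd')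
        simp [Function.update_of_ne this, h2 d' hd']
    have := hmax _ (mem_filter.2 ⟨mem_univ _, hg⟩)
    rw [card_insert_of_notMem hd] at this
    omega
  have hcount : Set.Countable ((A : Set κ) ∪
      ⋃ d ∈ (σᶜ : Finset D), ⋃ α ∈ Z, {t | t ∈ J ∧ f t d = α}) := by
    refine (A.countable_toSet).union ?_
    refine Set.Countable.biUnion (σᶜ : Finset D).countable_toSet fun d hd => ?_
    refine Set.Countable.biUnion Z.countable_toSet fun α _ => ?_
    exact hbad d (by simpa using hd) α
  have : ¬ J ⊆ ((A : Set κ) ∪ ⋃ d ∈ (σᶜ : Finset D), ⋃ α ∈ Z, {t | t ∈ J ∧ f t d = α}) :=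
    fun hs => he0 (hcount.mono hs)
  rw [Set.not_subset] at this
  obtain ⟨t, htJ, ht⟩ := this
  refine ⟨t, fun hA => ht (Or.inl hA), f t, hf t htJ.1, htJ.2, fun d hd hZ => ht (Or.inr ?_)⟩
  simp only [Set.mem_iUnion]
  exact ⟨d, by simpa using hd, f t d, hZ, htJ, rfl⟩

theorem dup {D : Type} [Fintype D] [DecidableEq D] (σ : Finset D) (e : D → κ) (R : Finset κ)
    (x : κ → ℝ) (he : ∀ d ∈ σ, e d ∈ R) (Q : κ → (D → κ) → Prop)
    (hQ : Fresh Q σ e) (hinj : ∀ t e', Q t e' → Injective e') (L : ℕ) :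
    ∃ (x' : κ → ℝ) (S A : Finset κ), R ⊆ S ∧ (∀ j, j ∉ S → x' j = 0) ∧ (∀ j ∈ R, x' j = x j) ∧
      ∑ j ∈ S, |x' j| ≤ ∑ j ∈ R, |x j| + L * ∑ d ∈ σᶜ, |x (e d)| ∧ A.card = L ∧
      ∀ t ∈ A, ∃ e', Q t e' ∧ (∀ d, e' d ∈ S) ∧ ∀ d, x' (e' d) = x (e d) := by
  classical
  induction L with
  | zero =>
    refine ⟨fun j => if j ∈ R then x j else 0, R, ∅, subset_rfl, fun j hj => by simp [hj],
      fun j hj => by simp [hj], ?_, rfl, by simp⟩
    simp only [Nat.cast_zero, zero_mul, add_zero]
    exact le_of_eq (sum_congr rfl fun j hj => by simp [hj])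
  | succ L ih =>
    obtain ⟨x', S, A, hRS, h0, hR, hsum, hcard, hA⟩ := ih
    obtain ⟨t, htA, e', hQ', h1, h2⟩ := hQ S A
    have hi := hinj t e' hQ'
    let y : κ → ℝ := fun j => if j ∈ S then x' j else Function.extend e' (fun d => x (e d)) 0 j
    have hyS : ∀ j ∈ S, y j = x' j := fun j hj => by simp [y, hj]
    have hye : ∀ d, d ∉ σ → y (e' d) = x (e d) := fun d hd => by
      simp [y, h2 d hd, hi.extend_apply]
    have hdisj : Disjoint S ((σᶜ).image e') := by
      rw [Finset.disjoint_right]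
      intro j hj
      obtain ⟨d, hd, rfl⟩ := mem_image.1 hj
      exact h2 d (by simpa using hd)
    refine ⟨y, S ∪ (σᶜ).image e', insert t A, hRS.trans subset_union_left, ?_, ?_, ?_, ?_, ?_⟩
    · intro j hj
      rw [mem_union, not_or] at hj
      simp only [y, hj.1, if_false]
      rw [Function.extend_apply']
      · rfl
      · rintro ⟨d, rfl⟩
        by_cases hd : d ∈ σ
        · exact hj.1 (hRS (h1 d hd ▸ he d hd))
        · exact hj.2 (mem_image_of_mem _ (by simpa using hd))
    · intro j hj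
      rw [hyS j (hRS hj), hR j hj]
    · rw [sum_union hdisj, sum_image (fun a _ b _ h => hi h)]
      have e1 : ∑ j ∈ S, |y j| = ∑ j ∈ S, |x' j| := sum_congr rfl fun j hj => by rw [hyS j hj]
      have e2 : ∑ d ∈ σᶜ, |y (e' d)| = ∑ d ∈ σᶜ, |x (e d)| :=
        sum_congr rfl fun d hd => by rw [hye d (by simpa using hd)]
      rw [e1, e2]
      push_cast
      linarith
    · rw [card_insert_of_notMem htA, hcard]
    · intro t' ht'
      rcases mem_insert.1 ht' with rfl | ht'
      · refine ⟨e', hQ', fun d => ?_, fun d => ?_⟩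
        · by_cases hd : d ∈ σ
          · exact mem_union_left _ (hRS (h1 d hd ▸ he d hd))
          · exact mem_union_right _ (mem_image_of_mem _ (by simpa using hd))
        · by_cases hd : d ∈ σ
          · rw [h1 d hd, hyS _ (hRS (he d hd)), hR _ (he d hd)]
          · exact hye d hd
      · obtain ⟨e'', a1, a2, a3⟩ := hA t' ht'
        exact ⟨e'', a1, fun d => mem_union_left _ (a2 d), fun d => by rw [hyS _ (a2 d), a3 d]⟩

theorem dup' {D : Type} [Fintype D] [DecidableEq D] (σ : Finset D) (e : D → κ) (R : Finset κ)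
    (x : κ → ℝ) (he : ∀ d ∈ σ, e d ∈ R) (Q : κ → (D → κ) → Prop)
    (hQ : Fresh Q σ e) (hinj : ∀ t e', Q t e' → Injective e') (L : ℕ)
    (hL : ∑ j ∈ R, |x j| + L * ∑ d ∈ σᶜ, |x (e d)| ≤ 1) :
    ∃ (x' : κ → ℝ) (A : Finset κ), InB x' ∧ A.card = L ∧
      ∀ t ∈ A, ∃ e', Q t e' ∧ x' ∘ e' = x ∘ e := by
  classical
  obtain ⟨x', S, A, -, h0, -, hsum, hcard, hA⟩ := dup σ e R x he Q hQ hinj L
  refine ⟨x', A, fun F => ?_, hcard, fun t ht => ?_⟩
  · calc ∑ i ∈ F, |x' i| = ∑ i ∈ F ∩ S, |x' i| := by
          refine (sum_subset inter_subset_left fun j hj hj' => ?_).symm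
          rw [h0 j (fun h => hj' (mem_inter.2 ⟨hj, h⟩)), abs_zero]
      _ ≤ ∑ i ∈ S, |x' i| :=
          sum_le_sum_of_subset_of_nonneg inter_subset_right fun _ _ _ => abs_nonneg _
      _ ≤ 1 := hsum.trans hL
  · obtain ⟨e', a1, -, a3⟩ := hA t ht
    exact ⟨e', a1, funext a3⟩

theorem numeric (s l η : ℕ → ℝ) (M : ℝ) (N p m : ℕ) (hm : m = N * (p + 1)) (hN : 4 * M < N)
    (hN1 : 1 ≤ N) (hp : (1 - 1 / (2 * N : ℝ)) ^ p * (2 * N * m) ≤ 1)
    (hs : ∀ k, s (k + 1) ≤ s k) (hl : ∀ k, 0 ≤ l k) (hsum : ∑ k ∈ range m, l k ≤ s m)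
    (ha : ∀ k < m, ∀ L : ℕ, L * l k ≤ s (k + 1) → L * η k ≤ M * m)
    (hb : ∀ k < m, ∀ L : ℕ, L * (s k - s (k + 1) + l k) ≤ s k → L * η k ≤ M)
    (hc : (m : ℝ) / 2 ≤ ∑ k ∈ range m, η k) : False := by
  classical
  have hanti : Antitone s := antitone_nat_of_succ_le hs
  have hN0 : (1 : ℝ) ≤ N := by exact_mod_cast hN1
  have hm0 : (0 : ℝ) < m := by
    have : 0 < m := by rw [hm]; positivity
    exact_mod_cast this
  have hlk : ∀ k < m, l k ≤ s m := fun k hk =>
    (single_le_sum (f := l) (fun j _ => hl j) (mem_range.2 hk)).trans hsum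
  have hsm : 0 ≤ s m := (sum_nonneg fun j _ => hl j).trans hsum
  have hη : ∀ k < m, η k ≤ M := fun k hk => by
    have := hb k hk 1 (by
      have := hlk k hk
      have := hanti (show k + 1 ≤ m from hk)
      push_cast; linarith)
    simpa using this
  set r : ℝ := 1 - 1 / (2 * N : ℝ) with hr
  have hr0 : 0 < r := by
    rw [hr, sub_pos, div_lt_one (by positivity)]; linarith
  have hr1 : r ≤ 1 := by
    rw [hr]; have : (0 : ℝ) ≤ 1 / (2 * N : ℝ) := by positivity
    linarith
  let good : ℕ → Prop := fun k => 1 / 4 ≤ η k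
  let c : ℕ → ℕ := fun j => ((range j).filter good).card
  let v : ℕ → ℝ := fun j => s j - ∑ k ∈ range j, l k + s m
  have hv1 : ∀ j, v (j + 1) = v j - (s j - s (j + 1) + l j) := fun j => by
    simp only [v, sum_range_succ]; ring
  have hv2 : ∀ j ≤ m, v j ≤ 2 * s j := fun j hj => by
    have := hanti hj
    have : 0 ≤ ∑ k ∈ range j, l k := sum_nonneg fun k _ => hl k
    simp only [v]; linarith
  have key : ∀ j ≤ m, 1 ≤ c j → v j * r < r ^ (c j) * (2 * N * m * s m) := by
    intro j
    induction j with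
    | zero => intro _ h; simp [c] at h
    | succ j ih =>
      intro hj hc1
      have hjm : j < m := hj
      by_cases hg : good j
      · have hcs : c (j + 1) = c j + 1 := by
          simp only [c, range_add_one, filter_insert, hg, if_true]
          rw [card_insert_of_notMem (by simp)]
        by_cases hc0 : c j = 0
        · rw [hcs, hc0]
          have h1 : s (j + 1) < (N * m : ℕ) * l j := by
            by_contra hcon
            have := ha j hjm (N * m) (not_lt.1 hcon)
            have hg' : 1 / 4 ≤ η j := hg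
            push_cast at this
            have h3 : (N * m : ℝ) * (1 / 4) ≤ N * m * η j := by gcongr
            nlinarith
          have h2 := hv2 (j + 1) hj
          have h3 := hlk j hjm
          push_cast at h1
          have h4 : (N * m : ℝ) * l j ≤ N * m * s m := by gcongr
          have h5 : v (j + 1) < 2 * N * m * s m := by linarith
          simp only [zero_add, pow_one]
          rw [mul_comm]
          gcongr
        · have ih' := ih hjm.le (Nat.one_le_iff_ne_zero.2 hc0)
          have h1 : s j < N * (s j - s (j + 1) + l j) := by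
            by_contra hcon
            have := hb j hjm N (not_lt.1 hcon)
            have hg' : 1 / 4 ≤ η j := hg
            have h3 : (N : ℝ) * (1 / 4) ≤ N * η j := by gcongr
            linarith
          have h2 := hv2 j hjm.le
          have h3 : v (j + 1) ≤ v j * r := by
            rw [hv1, hr]
            have : v j * (1 / (2 * N)) ≤ s j - s (j + 1) + l j := by
              rw [mul_one_div, div_le_iff₀ (by positivity)]
              linarith
            linarith
          rw [hcs, pow_succ]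
          calc v (j + 1) * r ≤ v j * r * r := by gcongr
            _ < r ^ c j * (2 * N * m * s m) * r := by gcongr
            _ = _ := by ring
      · have hcs : c (j + 1) = c j := by
          simp only [c, range_add_one, filter_insert, hg, if_false]
        rw [hcs] at hc1 ⊢
        have ih' := ih hjm.le hc1
        have h3 : v (j + 1) ≤ v j := by
          rw [hv1]; have := hs j; have := hl j; linarith
        calc v (j + 1) * r ≤ v j * r := by gcongr
          _ < _ := ih'
  have hcm : p + 1 ≤ c m := by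
    have h1 : ∑ k ∈ range m, η k ≤ c m * M + m / 4 := by
      rw [← sum_filter_add_sum_filter_not (range m) good]
      have a1 : ∑ k ∈ (range m).filter good, η k ≤ c m * M := by
        have := sum_le_card_nsmul ((range m).filter good) η M
          (fun k hk => hη k (mem_range.1 (mem_filter.1 hk).1))
        simpa [c] using this
      have a2 : ∑ k ∈ (range m).filter (fun k => ¬ good k), η k ≤ m / 4 := by
        have := sum_le_card_nsmul ((range m).filter (fun k => ¬ good k)) η (1 / 4)
          (fun k hk => (not_le.1 (mem_filter.1 hk).2).le)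
        have h2 : (((range m).filter (fun k => ¬ good k)).card : ℝ) ≤ m := by
          exact_mod_cast (card_filter_le _ _).trans (card_range m).le
        rw [nsmul_eq_mul] at this
        linarith
      linarith
    have h2 : (m : ℝ) ≤ c m * N := by
      have : (0 : ℝ) ≤ c m := by positivity
      nlinarith
    have h3 : m ≤ c m * N := by exact_mod_cast h2
    have h4 : (p + 1) * N ≤ c m * N := by rw [mul_comm, ← hm]; exact h3
    exact Nat.le_of_mul_le_mul_right h4 hN1
  have k1 := key m le_rfl (by omega)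
  have k2 : s m ≤ v m := by simp only [v]; linarith
  have k3 : r ^ c m ≤ r ^ (p + 1) := pow_le_pow_of_le_one hr0.le hr1 hcm
  have k4 : r ^ c m * (2 * N * m * s m) ≤ r ^ (p + 1) * (2 * N * m * s m) := by gcongr
  have k5 : r ^ (p + 1) * (2 * N * m * s m) = (r ^ p * (2 * N * m)) * (s m * r) := by ring
  have k6 : (r ^ p * (2 * N * m)) * (s m * r) ≤ 1 * (s m * r) := by gcongr
  have k7 : s m * r ≤ v m * r := by gcongr
  linarith

end Pool.Agent.P.MP_b4ec01_an
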