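import Pool.Agent.P.MP_b4ec01_an.Comb

open Finset Function

namespace Pool.Agent.P.MP_b4ec01_an

universe u

variable {κ : Type u}

section
variable {Θ : Type} (D : Θ → Type) (H : ∀ θ, (D θ → ℝ) → ℝ)

/-- `f` is, on the ball, within `1/8` of the model function `H θ` of the coordinates `e` -/
def App (f : (κ → ℝ) → ℝ) (θ : Θ) (e : D θ → κ) : Prop :=
  Injective e ∧ ∀ x, InB x → |f x - H θ (x ∘ e)| ≤ 1 / 8

/-- data attached to one level of the branch -/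
structure Lev (κ : Type u) {Θ : Type} (D : Θ → Type) where
  θ : Θ
  ρ : Finset (D θ)
  ρ' : Finset (D θ)
  E : D θ → κ
  e0 : D θ → κ
  a : κ
  R : Finset κ

variable (g : Finset κ → κ → κ → (κ → ℝ) → ℝ)

def Leafy (P : Finset κ) (a : κ) (θ : Θ) (ρ : Finset (D θ)) (e0 : D θ → κ) : Prop :=
  Fresh (fun i e => App D H (g P a i) θ e) ρ e0

def Childy (P : Finset κ) (θ : Θ) (ρ ρ' : Finset (D θ)) (E : D θ → κ) : Prop :=
  Fresh (fun a e0 => Leafy D H g P a θ ρ e0) ρ' E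

theorem pigeon {ι : Type} [Countable ι] [Uncountable κ] (Q : κ → ι → Prop)
    (h : ∀ t, ∃ i, Q t i) : ∃ i, ¬ Set.Countable {t | Q t i} := by
  by_contra hc
  push Not at hc
  have : (Set.univ : Set κ) ⊆ ⋃ i, {t | Q t i} := fun t _ => Set.mem_iUnion.2 (h t)
  exact Set.not_countable_univ ((Set.countable_iUnion hc).mono this)

variable [Countable Θ] [∀ θ, Fintype (D θ)] [Uncountable κ]

theorem exists_leafy (happ : ∀ P a i, ∃ θ e, App D H (g P a i) θ e) (P : Finset κ) (a : κ) :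
    ∃ θ ρ e0, Leafy D H g P a θ ρ e0 := by
  obtain ⟨θ, hθ⟩ := pigeon (fun i θ => ∃ e, App D H (g P a i) θ e) (happ P a)
  obtain ⟨ρ, e0, h⟩ := exists_fresh _ hθ
  exact ⟨θ, ρ, e0, h⟩

theorem exists_childy (happ : ∀ P a i, ∃ θ e, App D H (g P a i) θ e) (P : Finset κ) :
    ∃ θ ρ ρ' E, Childy D H g P θ ρ ρ' E := by
  obtain ⟨⟨θ, ρ⟩, hθ⟩ := pigeon (ι := Σ θ, Finset (D θ))
    (fun a w => ∃ e0, Leafy D H g P a w.1 w.2 e0) (fun a => by
      obtain ⟨θ, ρ, e0, h⟩ := exists_leafy D H g happ P a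
      exact ⟨⟨θ, ρ⟩, e0, h⟩)
  obtain ⟨ρ', E, h⟩ := exists_fresh _ hθ
  exact ⟨θ, ρ, ρ', E, h⟩

theorem exists_lev (happ : ∀ P a i, ∃ θ e, App D H (g P a i) θ e) (P R0 : Finset κ) :
    ∃ l : Lev κ D, R0 ⊆ l.R ∧ Childy D H g P l.θ l.ρ l.ρ' l.E ∧ l.a ∉ P ∧
      Leafy D H g P l.a l.θ l.ρ l.e0 ∧ (∀ d ∈ l.ρ', l.e0 d = l.E d) ∧ (∀ d, l.E d ∈ l.R) ∧
      ∀ d, d ∉ l.ρ' → l.e0 d ∉ l.R := by
  classical
  obtain ⟨θ, ρ, ρ', E, h⟩ := exists_childy D H g happ P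
  obtain ⟨a, ha, e0, h1, h2, h3⟩ := h (R0 ∪ univ.image E) P
  exact ⟨⟨θ, ρ, ρ', E, e0, a, R0 ∪ univ.image E⟩, subset_union_left, h, ha, h1, h2,
    fun d => mem_union_right _ (mem_image_of_mem _ (mem_univ _)), h3⟩

omit [Uncountable κ] in
theorem inj_of_notMem [DecidableEq κ] (a : ℕ → κ) (h : ∀ k, a k ∉ (range k).image a) :
    Injective a := by
  intro i j hij
  rcases lt_trichotomy i j with h1 | h1 | h1
  · exact absurd (mem_image.2 ⟨i, mem_range.2 h1, hij⟩) (h j)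
  · exact h1
  · exact absurd (mem_image.2 ⟨j, mem_range.2 h1, hij.symm⟩) (h i)

theorem exists_branch [DecidableEq κ] (happ : ∀ P a i, ∃ θ e, App D H (g P a i) θ e) :
    ∃ l : ℕ → Lev κ D, ∀ k, (l k).R ⊆ (l (k + 1)).R ∧ (∀ d, (l k).e0 d ∈ (l (k + 1)).R) ∧
      Childy D H g ((range k).image fun j => (l j).a) (l k).θ (l k).ρ (l k).ρ' (l k).E ∧
      (l k).a ∉ ((range k).image fun j => (l j).a) ∧
      Leafy D H g ((range k).image fun j => (l j).a) (l k).a (l k).θ (l k).ρ (l k).e0 ∧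
      (∀ d ∈ (l k).ρ', (l k).e0 d = (l k).E d) ∧ (∀ d, (l k).E d ∈ (l k).R) ∧
      ∀ d, d ∉ (l k).ρ' → (l k).e0 d ∉ (l k).R := by
  choose F hF using exists_lev D H g happ
  let st : ℕ → Finset κ × Finset κ := fun k => Nat.rec (∅, ∅)
    (fun _ w => (insert (F w.1 w.2).a w.1, (F w.1 w.2).R ∪ univ.image (F w.1 w.2).e0)) k
  let l : ℕ → Lev κ D := fun k => F (st k).1 (st k).2
  have h1 : ∀ k, (st (k + 1)).1 = insert (l k).a (st k).1 := fun k => rfl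
  have h2 : ∀ k, (st (k + 1)).2 = (l k).R ∪ univ.image (l k).e0 := fun k => rfl
  have hP : ∀ k, (st k).1 = (range k).image fun j => (l j).a := by
    intro k
    induction k with
    | zero => rfl
    | succ k ih => rw [h1, ih, range_add_one, image_insert]
  refine ⟨l, fun k => ?_⟩
  have hk := hF (st k).1 (st k).2
  have hk1 : (st (k + 1)).2 ⊆ (l (k + 1)).R := (hF (st (k + 1)).1 (st (k + 1)).2).1
  rw [h2] at hk1
  rw [← hP]
  exact ⟨subset_union_left.trans hk1,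
    fun d => hk1 (mem_union_right _ (mem_image_of_mem _ (mem_univ _))), hk.2⟩

omit [Countable Θ] [Uncountable κ] in
theorem exists_leaves [DecidableEq κ] (l : ℕ → Lev κ D) (P : ℕ → Finset κ) (Z0 : Finset κ)
    (h : ∀ k, Leafy D H g (P k) (l k).a (l k).θ (l k).ρ (l k).e0) :
    ∃ (i : ℕ → κ) (e : ∀ k, D (l k).θ → κ) (Z : ℕ → Finset κ), Injective i ∧ Z 0 = Z0 ∧
      ∀ k, Z k ⊆ Z (k + 1) ∧ (∀ d, e k d ∈ Z (k + 1)) ∧
        App D H (g (P k) (l k).a (i k)) (l k).θ (e k) ∧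
        (∀ d ∈ (l k).ρ, e k d = (l k).e0 d) ∧ ∀ d, d ∉ (l k).ρ → e k d ∉ Z k := by
  choose t ht e he using h
  let st : ℕ → Finset κ × Finset κ := fun k => Nat.rec (Z0, ∅)
    (fun k w => (w.1 ∪ univ.image (e k w.1 w.2), insert (t k w.1 w.2) w.2)) k
  let i : ℕ → κ := fun k => t k (st k).1 (st k).2
  have h1 : ∀ k, (st (k + 1)).2 = insert (i k) (st k).2 := fun k => rfl
  have h2 : ∀ k, (st (k + 1)).1 = (st k).1 ∪ univ.image (e k (st k).1 (st k).2) := fun k => rfl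
  have hA : ∀ k, (st k).2 = (range k).image i := by
    intro k
    induction k with
    | zero => rfl
    | succ k ih => rw [h1, ih, range_add_one, image_insert]
  refine ⟨i, fun k => e k (st k).1 (st k).2, fun k => (st k).1,
    inj_of_notMem i fun k => ?_, rfl, fun k => ⟨?_, fun d => ?_, he k _ _⟩⟩
  · rw [← hA]; exact ht k _ _
  · beta_reduce; rw [h2]; exact subset_union_left
  · beta_reduce; rw [h2]; exact mem_union_right _ (mem_image_of_mem _ (mem_univ _))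

omit [Countable Θ] [Uncountable κ] [∀ θ, Fintype (D θ)] in
theorem app_lower {f f' : (κ → ℝ) → ℝ} {θ : Θ} {e e' : D θ → κ} {x x' : κ → ℝ}
    (h : App D H f θ e) (h' : App D H f' θ e') (hx : InB x) (hx' : InB x')
    (hxx : x' ∘ e' = x ∘ e) : |f x| - 1 / 4 ≤ |f' x'| := by
  have a1 := h.2 x hx
  have a2 := h'.2 x' hx'
  rw [hxx] at a2
  have := abs_sub_abs_le_abs_sub (f x) (f' x')
  have a3 : |f x - f' x'| ≤ |f x - H θ (x ∘ e)| + |f' x' - H θ (x ∘ e)| := by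
    rw [abs_sub_comm (f' x')]; exact abs_sub_le _ _ _
  linarith

omit [Uncountable κ] in
theorem sum_comp_le {E : Type} [DecidableEq κ] (x : κ → ℝ) (e : E → κ) (he : Injective e)
    (σ : Finset E) (A B : Finset κ) (hAB : A ⊆ B) (h1 : ∀ d ∈ σ, e d ∈ B)
    (h2 : ∀ d ∈ σ, e d ∉ A) :
    ∑ d ∈ σ, |x (e d)| ≤ ∑ j ∈ B, |x j| - ∑ j ∈ A, |x j| := by
  rw [← sum_sdiff hAB, add_sub_cancel_right,
    ← sum_image (f := fun j => |x j|) (fun a _ b _ h => he h)]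
  refine sum_le_sum_of_subset_of_nonneg (fun j hj => ?_) fun _ _ _ => abs_nonneg _
  obtain ⟨d, hd, rfl⟩ := mem_image.1 hj
  exact mem_sdiff.2 ⟨h1 d hd, h2 d hd⟩

theorem core [DecidableEq κ] (M : ℝ) (N p m : ℕ) (hm : m = N * (p + 1)) (hN : 4 * M < N)
    (hN1 : 1 ≤ N) (hp : (1 - 1 / (2 * N : ℝ)) ^ p * (2 * N * m) ≤ 1)
    (happ : ∀ P a i, ∃ θ e, App D H (g P a i) θ e)
    (ha : ∀ P a (I : Finset κ) x, InB x → ∑ i ∈ I, |g P a i x| ≤ M * m)
    (hb : ∀ P (A : Finset κ) (i : κ → κ) x, Disjoint A P → InB x →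
      ∑ a ∈ A, |g P a (i a) x| ≤ M)
    (hc : ∀ a i : ℕ → κ, Injective a → Injective i → ∃ x, InB x ∧
      3 / 4 * (m : ℝ) ≤ ∑ k ∈ range m, |g ((range k).image a) (a k) (i k) x|) : False := by
  classical
  obtain ⟨l, hl⟩ := exists_branch D H g happ
  set P : ℕ → Finset κ := fun k => (range k).image fun j => (l j).a with hP
  obtain ⟨i, e, Z, hi, hZ0, hZ⟩ := exists_leaves D H g l P (l m).R (fun k => (hl k).2.2.2.2.1)
  obtain ⟨x, hx, hsum⟩ := hc (fun j => (l j).a) i (inj_of_notMem _ fun k => (hl k).2.2.2.1) hi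
  have hRmono : Monotone fun k => (l k).R := monotone_nat_of_le_succ fun k => (hl k).1
  have hZmono : Monotone Z := monotone_nat_of_le_succ fun k => (hZ k).1
  refine numeric (fun k => 1 - ∑ j ∈ (l k).R, |x j|) (fun k => ∑ d ∈ (l k).ρᶜ, |x (e k d)|)
    (fun k => |g (P k) (l k).a (i k) x| - 1 / 4) M N p m hm hN hN1 hp ?_ ?_ ?_ ?_ ?_ ?_
  · intro k
    have : ∑ j ∈ (l k).R, |x j| ≤ ∑ j ∈ (l (k + 1)).R, |x j| :=
      sum_le_sum_of_subset_of_nonneg (hl k).1 fun _ _ _ => abs_nonneg _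
    linarith
  · intro k
    exact sum_nonneg fun _ _ => abs_nonneg _
  · have h1 : ∀ k, ∑ d ∈ (l k).ρᶜ, |x (e k d)| ≤ ∑ j ∈ Z (k + 1), |x j| - ∑ j ∈ Z k, |x j| :=
      fun k => sum_comp_le x (e k) (hZ k).2.2.1.1 _ _ _ (hZ k).1 (fun d _ => (hZ k).2.1 d)
        (fun d hd => (hZ k).2.2.2.2 d (by simpa using hd))
    have h2 := sum_le_sum fun k (_ : k ∈ range m) => h1 k
    rw [sum_range_sub (fun k => ∑ j ∈ Z k, |x j|), hZ0] at h2
    have := hx (Z m)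
    linarith
  · intro k hk L hL
    obtain ⟨x', A, hx', hcard, hA⟩ := dup' (l k).ρ (e k) (l (k + 1)).R x
      (fun d hd => by rw [(hZ k).2.2.2.1 d hd]; exact (hl k).2.1 d)
      (fun i e => App D H (g (P k) (l k).a i) (l k).θ e)
      (Fresh.congr (hl k).2.2.2.2.1 (hZ k).2.2.2.1) (fun _ _ h => h.1) L
      (by linarith)
    refine le_trans ?_ (ha (P k) (l k).a A x' hx')
    rw [← hcard, ← nsmul_eq_mul]
    refine card_nsmul_le_sum _ _ _ fun t ht => ?_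
    obtain ⟨e', h1, h2⟩ := hA t ht
    exact app_lower D H (hZ k).2.2.1 h1 hx hx' h2
  · intro k hk L hL
    have hfresh : Fresh (fun a e' => a ∉ P k ∧ ∃ i', App D H (g (P k) a i') (l k).θ e')
        ((l k).ρ ∩ (l k).ρ') (e k) := by
      intro Z' A
      obtain ⟨a, haA, e0, h1, h2, h3⟩ := (hl k).2.2.1 Z' (A ∪ P k)
      obtain ⟨i', -, e', h4, h5, h6⟩ := h1 Z' ∅
      rw [mem_union, not_or] at haA
      refine ⟨a, haA.1, e', ⟨haA.2, i', h4⟩, fun d hd => ?_, fun d hd => ?_⟩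
      · rw [mem_inter] at hd
        rw [h5 d hd.1, h2 d hd.2, (hZ k).2.2.2.1 d hd.1, (hl k).2.2.2.2.2.1 d hd.2]
      · by_cases hd1 : d ∈ (l k).ρ
        · rw [h5 d hd1]
          exact h3 d fun h => hd (mem_inter.2 ⟨hd1, h⟩)
        · exact h6 d hd1
    have hsplit : ∑ d ∈ ((l k).ρ ∩ (l k).ρ')ᶜ, |x (e k d)| ≤
        (∑ j ∈ (l (k + 1)).R, |x j| - ∑ j ∈ (l k).R, |x j|) + ∑ d ∈ (l k).ρᶜ, |x (e k d)| := by
      have h1 : ((l k).ρ ∩ (l k).ρ')ᶜ = ((l k).ρ \ (l k).ρ') ∪ (l k).ρᶜ := by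
        ext d; simp only [mem_compl, mem_inter, mem_union, mem_sdiff]; tauto
      have h2 : Disjoint ((l k).ρ \ (l k).ρ') (l k).ρᶜ := by
        rw [Finset.disjoint_left]; intro d hd; simpa using (mem_sdiff.1 hd).1
      rw [h1, sum_union h2]
      gcongr
      refine sum_comp_le x (e k) (hZ k).2.2.1.1 _ _ _ (hl k).1 (fun d hd => ?_) (fun d hd => ?_)
      · rw [(hZ k).2.2.2.1 d (mem_sdiff.1 hd).1]; exact (hl k).2.1 d
      · rw [(hZ k).2.2.2.1 d (mem_sdiff.1 hd).1]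
        exact (hl k).2.2.2.2.2.2.2 d (mem_sdiff.1 hd).2
    obtain ⟨x', A, hx', hcard, hA⟩ := dup' ((l k).ρ ∩ (l k).ρ') (e k) (l k).R x
      (fun d hd => by
        rw [mem_inter] at hd
        rw [(hZ k).2.2.2.1 d hd.1, (hl k).2.2.2.2.2.1 d hd.2]
        exact (hl k).2.2.2.2.2.2.1 d)
      _ hfresh (fun _ _ h => by obtain ⟨_, _, h⟩ := h; exact h.1) L
      (by
        have : (L : ℝ) * ∑ d ∈ ((l k).ρ ∩ (l k).ρ')ᶜ, |x (e k d)| ≤ L *
          ((∑ j ∈ (l (k + 1)).R, |x j| - ∑ j ∈ (l k).R, |x j|) +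
            ∑ d ∈ (l k).ρᶜ, |x (e k d)|) := by gcongr
        linarith)
    have hA' : ∀ t, ∃ i', t ∈ A → t ∉ P k ∧
        |g (P k) (l k).a (i k) x| - 1 / 4 ≤ |g (P k) t i' x'| := by
      intro t
      by_cases ht : t ∈ A
      · obtain ⟨e', ⟨h0, i', h1⟩, h2⟩ := hA t ht
        exact ⟨i', fun _ => ⟨h0, app_lower D H (hZ k).2.2.1 h1 hx hx' h2⟩⟩
      · exact ⟨t, fun h => absurd h ht⟩
    choose i' hi' using hA'
    refine le_trans ?_ (hb (P k) A i' x' (Finset.disjoint_left.2 fun t ht => (hi' t ht).1) hx')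
    rw [← hcard, ← nsmul_eq_mul]
    exact card_nsmul_le_sum _ _ _ fun t ht => (hi' t ht).2
  · rw [sum_sub_distrib]
    simp only [sum_const, card_range, nsmul_eq_mul]
    linarith

end

end Pool.Agent.P.MP_b4ec01_an
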