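import Mathlib

namespace Pool.Agent.P.MP_b4ec01_an

universe u

/-- `B κ` is the set of `x ∈ ℝ^κ` with `∑ |x i| ≤ 1`.  As a type it carries the subspace
topology of the product topology of `ℝ^κ`. -/
def B (κ : Type u) : Set (κ → ℝ) :=
  {x | Summable (fun i => |x i|) ∧ ∑' i, |x i| ≤ 1}

end Pool.Agent.P.MP_b4ec01_an
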