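import Pool.Agent.P.MP_b4ec01_an.Core
import Pool.Agent.P.MP_b4ec01_an.Defs

open Finset Function

namespace Pool.Agent.P.MP_b4ec01_an

universe u v

variable {κ : Type u}

theorem mem_B_iff {x : κ → ℝ} : x ∈ B κ ↔ InB x := by
  constructor
  · rintro ⟨h1, h2⟩ F
    exact (h1.sum_le_tsum F fun _ _ => abs_nonneg _).trans h2
  · intro h
    have hs : Summable fun i => |x i| := summable_of_sum_le (fun _ => abs_nonneg _) h
    exact ⟨hs, hs.tsum_le_of_sum_le h⟩

theorem InB.abs_le {x : κ → ℝ} (h : InB x) (i : κ) : |x i| ≤ 1 := by simpa using h {i}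

theorem isCompact_B : IsCompact (B κ) := by
  have h1 : IsClosed (B κ) := by
    have : B κ = ⋂ F : Finset κ, {x | ∑ i ∈ F, |x i| ≤ 1} := by
      ext x; simp only [mem_B_iff, InB, Set.mem_iInter, Set.mem_ofPred_eq]
    rw [this]
    exact isClosed_iInter fun F => isClosed_le (by fun_prop) continuous_const
  refine (isCompact_univ_pi fun _ : κ => isCompact_Icc (a := (-1 : ℝ)) (b := 1)).of_isClosed_subset
    h1 fun x hx i _ => abs_le.1 ((mem_B_iff.1 hx).abs_le i)

instance compactSpace_B : CompactSpace (B κ) := isCompact_iff_compactSpace.1 isCompact_B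

theorem continuous_coord (i : κ) : Continuous fun x : B κ => x.1 i :=
  (continuous_apply i).comp continuous_subtype_val

theorem continuous_coord' {ι : Type v} (j : ι) (i : κ) :
    Continuous fun w : ι → B κ => (w j).1 i :=
  (continuous_coord i).comp (continuous_apply j)

/-- extension by zero -/
noncomputable def ext (f : C(B κ, ℝ)) (x : κ → ℝ) : ℝ :=
  open Classical in if h : InB x then f ⟨x, mem_B_iff.2 h⟩ else 0

theorem ext_apply (f : C(B κ, ℝ)) {x : κ → ℝ} (h : InB x) : ext f x = f ⟨x, mem_B_iff.2 h⟩ := by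
  simp [ext, h]

theorem aeval_apply {X : Type*} [TopologicalSpace X] {σ : Type*} (c : σ → C(X, ℝ))
    (q : MvPolynomial σ ℝ) (x : X) :
    MvPolynomial.aeval c q x = MvPolynomial.eval (fun j => c j x) q := by
  induction q using MvPolynomial.induction_on with
  | C a => simp
  | add p q hp hq => simp [hp, hq]
  | mul_X p j hp => simp [hp]

/-- countable family of model functions -/
noncomputable def HH (θ : ℕ × ℕ) (y : Fin θ.1 → ℝ) : ℝ :=
  TopologicalSpace.denseSeq C(Fin θ.1 → Set.Icc (-1 : ℝ) 1, ℝ) θ.2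
    fun j => Set.projIcc (-1) 1 (by norm_num) (y j)

theorem exists_app (f : C(B κ, ℝ)) :
    ∃ (θ : ℕ × ℕ) (e : Fin θ.1 → κ), App (fun θ : ℕ × ℕ => Fin θ.1) HH (ext f) θ e := by
  let c : κ → C(B κ, ℝ) := fun i => ⟨fun x => x.1 i, continuous_coord i⟩
  let A : Subalgebra ℝ C(B κ, ℝ) := (MvPolynomial.aeval c).range
  have hA : A.SeparatesPoints := by
    intro x y hxy
    have : ∃ i, x.1 i ≠ y.1 i := by
      by_contra h
      push Not at h
      exact hxy (Subtype.ext (funext h))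
    obtain ⟨i, hi⟩ := this
    exact ⟨c i, ⟨c i, ⟨MvPolynomial.X i, by simp⟩, rfl⟩, hi⟩
  obtain ⟨⟨_, p, rfl⟩, hp⟩ :=
    ContinuousMap.exists_mem_subalgebra_near_continuousMap_of_separatesPoints A hA f (1 / 16)
      (by norm_num)
  obtain ⟨d, e, he, q, rfl⟩ := MvPolynomial.exists_fin_rename p
  let c' : Fin d → C(Fin d → Set.Icc (-1 : ℝ) 1, ℝ) := fun j => ⟨fun y => (y j).1, by fun_prop⟩
  obtain ⟨n, hn⟩ := (TopologicalSpace.denseRange_denseSeq
    C(Fin d → Set.Icc (-1 : ℝ) 1, ℝ)).exists_dist_lt (MvPolynomial.aeval c' q)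
    (show (0 : ℝ) < 1 / 16 by norm_num)
  refine ⟨(d, n), e, he, fun x hx => ?_⟩
  rw [ext_apply f hx]
  have h1 := (ContinuousMap.norm_coe_le_norm _ (⟨x, mem_B_iff.2 hx⟩ : B κ)).trans_lt hp
  have h2 := (ContinuousMap.dist_apply_le_dist
    (fun j => Set.projIcc (-1 : ℝ) 1 (by norm_num) (x (e j)))).trans_lt hn
  have h3 : MvPolynomial.aeval c (MvPolynomial.rename e q) ⟨x, mem_B_iff.2 hx⟩ =
      MvPolynomial.aeval c' q fun j => Set.projIcc (-1 : ℝ) 1 (by norm_num) (x (e j)) := by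
    rw [MvPolynomial.aeval_rename, aeval_apply, aeval_apply]
    congr 2
    funext j
    simp only [c, c', comp_apply, ContinuousMap.coe_mk]
    rw [Set.projIcc_of_mem _ (abs_le.1 (hx.abs_le (e j)))]
  simp only [ContinuousMap.sub_apply, Real.norm_eq_abs, AlgHom.toRingHom_eq_coe,
    RingHom.coe_coe] at h1
  rw [h3] at h1
  rw [Real.dist_eq] at h2
  simp only [HH, comp_apply]
  rw [abs_lt] at h1 h2
  rw [abs_le]
  constructor <;> linarith [h1.1, h1.2, h2.1, h2.2]

/-- a finitely supported point -/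
noncomputable def pt (a : ℕ → κ) (c : ℕ → ℝ) (m : ℕ) (j : κ) : ℝ :=
  open Classical in ∑ k ∈ range m, if a k = j then c k else 0

theorem pt_inB (a : ℕ → κ) (c : ℕ → ℝ) (m : ℕ) (hc : ∀ k, 0 ≤ c k)
    (hs : ∑ k ∈ range m, c k ≤ 1) : InB (pt a c m) := by
  classical
  intro F
  have h1 : ∀ j, |pt a c m j| = pt a c m j := fun j =>
    abs_of_nonneg (sum_nonneg fun k _ => by split_ifs; exacts [hc k, le_rfl])
  simp only [h1]
  simp only [pt]
  rw [sum_comm]
  refine le_trans (sum_le_sum fun k _ => ?_) hs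
  rw [sum_ite_eq]
  split_ifs
  exacts [le_rfl, hc k]

theorem pt_apply (a : ℕ → κ) (ha : Injective a) (c : ℕ → ℝ) (m k : ℕ) (hk : k < m) :
    pt a c m (a k) = c k := by
  classical
  simp only [pt, ha.eq_iff]
  rw [sum_ite_eq']
  simp [hk]

theorem geom (k : ℕ) : ∑ j ∈ range k, (2 / 3 ^ (j + 1) : ℝ) = 1 - 1 / 3 ^ k := by
  induction k with
  | zero => simp
  | succ k ih => rw [sum_range_succ, ih]; field_simp; ring

section
variable {ι : Type v} (i0 i1 : ι) (m : ℕ)

/-- the test functions -/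
noncomputable def uu (P : Finset κ) (a i : κ) : C(ι → B κ, ℝ) :=
  ⟨fun w => max 0 (min 1 (3 ^ m * (∑ b ∈ P, (w i0).1 b + 2 * (w i0).1 a - 1))) *
    min 1 (m * |(w i1).1 i|), by
      refine (continuous_const.max (continuous_const.min (continuous_const.mul
        (((continuous_finsetSum _ fun b _ => continuous_coord' i0 b).add
          (continuous_const.mul (continuous_coord' i0 a))).sub continuous_const)))).mul
        (continuous_const.min (continuous_const.mul (continuous_coord' i1 i).abs))⟩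

theorem uu_a (P : Finset κ) (a : κ) (I : Finset κ) (w : ι → B κ) :
    ∑ i ∈ I, |uu i0 i1 m P a i w| ≤ m := by
  have h := mem_B_iff.1 (w i1).2 I
  calc ∑ i ∈ I, |uu i0 i1 m P a i w| ≤ ∑ i ∈ I, m * |(w i1).1 i| := by
        refine sum_le_sum fun i _ => ?_
        simp only [uu, ContinuousMap.coe_mk]
        have h1 : (0 : ℝ) ≤ min 1 (m * |(w i1).1 i|) := by positivity
        rw [abs_of_nonneg (mul_nonneg (le_max_left _ _) h1)]
        calc _ ≤ 1 * min 1 (m * |(w i1).1 i|) := by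
              gcongr
              exact max_le zero_le_one (min_le_left _ _)
          _ ≤ _ := by rw [one_mul]; exact min_le_right _ _
    _ = m * ∑ i ∈ I, |(w i1).1 i| := by rw [mul_sum]
    _ ≤ m * 1 := by gcongr
    _ = m := mul_one _

theorem uu_b (P A : Finset κ) (i : κ → κ) (hAP : Disjoint A P) (w : ι → B κ) :
    ∑ a ∈ A, |uu i0 i1 m P a (i a) w| ≤ 1 := by
  classical
  have hle : ∀ a, |uu i0 i1 m P a (i a) w| ≤ 1 := fun a => by
    simp only [uu, ContinuousMap.coe_mk]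
    have h1 : (0 : ℝ) ≤ min 1 (m * |(w i1).1 (i a)|) := by positivity
    rw [abs_of_nonneg (mul_nonneg (le_max_left _ _) h1)]
    exact mul_le_one₀ (max_le zero_le_one (min_le_left _ _)) h1 (min_le_left _ _)
  have hz : ∀ a, ∑ b ∈ P, (w i0).1 b + 2 * (w i0).1 a - 1 ≤ 0 →
      |uu i0 i1 m P a (i a) w| = 0 := fun a h => by
    simp only [uu, ContinuousMap.coe_mk]
    rw [max_eq_left, zero_mul, abs_zero]
    exact (min_le_right _ _).trans (mul_nonpos_of_nonneg_of_nonpos (by positivity) h)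
  by_cases hex : ∃ a ∈ A, 0 < ∑ b ∈ P, (w i0).1 b + 2 * (w i0).1 a - 1
  · obtain ⟨a, haA, ha⟩ := hex
    rw [sum_eq_single_of_mem a haA]
    · exact hle a
    · intro a' ha' hne
      refine hz a' ?_
      have h := mem_B_iff.1 (w i0).2 (insert a (insert a' P))
      have h1 : a ∉ P := Finset.disjoint_left.1 hAP haA
      have h2 : a' ∉ P := Finset.disjoint_left.1 hAP ha'
      rw [sum_insert (by simp [h1, hne.symm]), sum_insert h2] at h
      have h3 : ∑ b ∈ P, (w i0).1 b ≤ ∑ b ∈ P, |(w i0).1 b| :=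
        sum_le_sum fun b _ => le_abs_self _
      have h4 := le_abs_self ((w i0).1 a)
      have h5 := le_abs_self ((w i0).1 a')
      linarith
  · push Not at hex
    rw [sum_eq_zero fun a ha => hz a (hex a ha)]
    exact zero_le_one

theorem uu_c [DecidableEq κ] (h01 : i0 ≠ i1) (hm : 0 < m) (a i : ℕ → κ) (ha : Injective a)
    (hi : Injective i) :
    ∃ w : ι → B κ, ∀ k < m, uu i0 i1 m ((range k).image a) (a k) (i k) w = 1 := by
  classical
  have hm' : (0 : ℝ) < m := by exact_mod_cast hm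
  have hy : InB (pt a (fun k => 2 / 3 ^ (k + 1)) m) := pt_inB _ _ _ (fun k => by positivity) (by
    rw [geom]; have : (0 : ℝ) ≤ 1 / 3 ^ m := by positivity
    linarith)
  have hz : InB (pt i (fun _ => 1 / m) m) := pt_inB _ _ _ (fun k => by positivity) (by
    simp only [sum_const, card_range, nsmul_eq_mul]
    rw [mul_one_div_cancel hm'.ne'])
  refine ⟨fun j => if j = i0 then ⟨_, mem_B_iff.2 hy⟩ else ⟨_, mem_B_iff.2 hz⟩, fun k hk => ?_⟩
  simp only [uu, ContinuousMap.coe_mk, if_true, h01.symm, if_false]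
  rw [sum_image (fun _ _ _ _ h => ha h), pt_apply a ha _ _ _ hk, pt_apply i hi _ _ _ hk,
    sum_congr rfl (fun j hj => pt_apply a ha _ _ _ ((mem_range.1 hj).trans hk)), geom,
    abs_of_pos (by positivity), mul_one_div_cancel hm'.ne', min_self, mul_one]
  have h1 : (1 : ℝ) ≤ 3 ^ m * (1 - 1 / 3 ^ k + 2 * (2 / 3 ^ (k + 1)) - 1) := by
    have h2 : (1 - 1 / 3 ^ k + 2 * (2 / 3 ^ (k + 1)) - 1 : ℝ) = 1 / 3 ^ (k + 1) := by
      field_simp; ring
    rw [h2, mul_one_div, one_le_div (by positivity)]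
    exact pow_le_pow_right₀ (by norm_num) hk
  rw [min_eq_left h1, max_eq_right zero_le_one]

end

theorem sign_trick {X Y : Type*} [TopologicalSpace X] [CompactSpace X] [TopologicalSpace Y]
    [CompactSpace Y] (T : C(X, ℝ) →ₗ[ℝ] C(Y, ℝ)) (M : ℝ) (hM : 0 ≤ M)
    (h2 : ∀ f, ‖T f‖ ≤ M * ‖f‖) {α : Type*} (I : Finset α) (u : α → C(X, ℝ)) (c : ℝ)
    (hc : 0 ≤ c) (hu : ∀ w, ∑ t ∈ I, |u t w| ≤ c) (y : Y) : ∑ t ∈ I, |T (u t) y| ≤ M * c := by
  let s : α → ℝ := fun t => if 0 ≤ T (u t) y then 1 else -1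
  have hs : ∀ t, |s t| = 1 := fun t => by simp only [s]; split_ifs <;> simp
  have h1 : ∑ t ∈ I, |T (u t) y| = T (∑ t ∈ I, s t • u t) y := by
    simp only [map_sum, map_smul, ContinuousMap.coe_sum, Finset.sum_apply,
      ContinuousMap.smul_apply, smul_eq_mul]
    refine sum_congr rfl fun t _ => ?_
    simp only [s]
    split_ifs with h
    · rw [abs_of_nonneg h, one_mul]
    · rw [abs_of_neg (not_le.1 h)]; ring
  have h3 : ‖∑ t ∈ I, s t • u t‖ ≤ c := by
    rw [ContinuousMap.norm_le _ hc]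
    intro w
    simp only [ContinuousMap.coe_sum, Finset.sum_apply, ContinuousMap.smul_apply, smul_eq_mul,
      Real.norm_eq_abs]
    refine (abs_sum_le_sum_abs _ _).trans (le_trans (le_of_eq ?_) (hu w))
    exact sum_congr rfl fun t _ => by rw [abs_mul, hs, one_mul]
  rw [h1]
  calc _ ≤ ‖T (∑ t ∈ I, s t • u t) y‖ := le_abs_self _
    _ ≤ ‖T (∑ t ∈ I, s t • u t)‖ := ContinuousMap.norm_coe_le_norm _ _
    _ ≤ M * ‖∑ t ∈ I, s t • u t‖ := h2 _
    _ ≤ M * c := by gcongr

theorem exists_p (N : ℕ) (hN : 1 ≤ N) :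
    ∃ p : ℕ, (1 - 1 / (2 * N : ℝ)) ^ p * (2 * N * (N * (p + 1) : ℕ)) ≤ 1 := by
  have hN0 : (1 : ℝ) ≤ N := by exact_mod_cast hN
  set r : ℝ := 1 - 1 / (2 * N : ℝ) with hr
  have hr0 : 0 ≤ r := by
    rw [hr, sub_nonneg, div_le_one (by positivity)]; linarith
  have hr1 : r < 1 := by
    rw [hr]; have : (0 : ℝ) < 1 / (2 * N : ℝ) := by positivity
    linarith
  have h1 := ((tendsto_self_mul_const_pow_of_lt_one hr0 hr1).add
    (tendsto_pow_atTop_nhds_zero_of_lt_one hr0 hr1)).const_mul (2 * N * N : ℝ)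
  simp only [add_zero, mul_zero] at h1
  obtain ⟨p, hp⟩ := (h1.eventually (ge_mem_nhds (show (0 : ℝ) < 1 by norm_num))).exists
  refine ⟨p, le_trans (le_of_eq ?_) hp⟩
  push_cast
  ring

theorem no_embedding [Uncountable κ] {ι : Type v} [Nontrivial ι]
    (T : C(ι → B κ, ℝ) →ₗ[ℝ] C(B κ, ℝ)) (M : ℝ) (hM : 0 ≤ M)
    (h1 : ∀ f, ‖f‖ ≤ ‖T f‖) (h2 : ∀ f, ‖T f‖ ≤ M * ‖f‖) : False := by
  classical
  obtain ⟨i0, i1, h01⟩ := exists_pair_ne ι
  obtain ⟨N, hN⟩ := exists_nat_gt (4 * M)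
  have hN1 : 1 ≤ N := by
    have : (0 : ℝ) < N := by linarith
    exact_mod_cast this
  obtain ⟨p, hp⟩ := exists_p N hN1
  set m := N * (p + 1) with hm
  have hm0 : 0 < m := by positivity
  have hm' : (0 : ℝ) < m := by exact_mod_cast hm0
  refine core (fun θ : ℕ × ℕ => Fin θ.1) HH (fun P a i => ext (T (uu i0 i1 m P a i))) M N p m hm
    hN hN1 hp (fun P a i => exists_app _) ?_ ?_ ?_
  · intro P a I x hx
    simp only [ext_apply _ hx]
    exact sign_trick T M hM h2 I _ _ hm'.le (uu_a i0 i1 m P a I) _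
  · intro P A i x hAP hx
    simp only [ext_apply _ hx]
    simpa using sign_trick T M hM h2 A _ _ zero_le_one (uu_b i0 i1 m P A i hAP) _
  · intro a i ha hi
    obtain ⟨w, hw⟩ := uu_c i0 i1 m h01 hm0 a i ha hi
    set f := ∑ k ∈ range m, uu i0 i1 m ((range k).image a) (a k) (i k) with hf
    have h3 : (m : ℝ) ≤ ‖f‖ := by
      refine le_trans (le_of_eq ?_) (ContinuousMap.norm_coe_le_norm f w)
      simp only [hf, ContinuousMap.coe_sum, Finset.sum_apply]
      rw [sum_congr rfl fun k hk => hw k (mem_range.1 hk)]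
      simp
    by_contra hcon
    push Not at hcon
    have h4 : ‖T f‖ ≤ 3 / 4 * m := by
      rw [ContinuousMap.norm_le _ (by positivity)]
      intro x
      have hx := mem_B_iff.1 x.2
      refine le_trans ?_ (hcon x.1 hx).le
      simp only [ext_apply _ hx, hf, map_sum, ContinuousMap.coe_sum, Finset.sum_apply,
        Real.norm_eq_abs]
      exact abs_sum_le_sum_abs _ _
    linarith [h1 f]

theorem not_isEmbedding [Uncountable κ] {ι : Type v} [Nontrivial ι]
    (T : C(ι → B κ, ℝ) →L[ℝ] C(B κ, ℝ)) : ¬ Topology.IsEmbedding T := by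
  intro hT
  obtain ⟨K, hK⟩ := T.antilipschitz_of_isEmbedding hT
  refine no_embedding ((K : ℝ) • (T : C(ι → B κ, ℝ) →ₗ[ℝ] C(B κ, ℝ))) (K * ‖T‖) (by positivity)
    (fun f => ?_) (fun f => ?_)
  · have := hK.le_mul_dist f 0
    simpa [norm_smul] using this
  · simp only [LinearMap.smul_apply, ContinuousLinearMap.coe_coe, norm_smul, Real.norm_eq_abs,
      NNReal.abs_eq, mul_assoc]
    gcongr
    exact T.le_opNorm f

end Pool.Agent.P.MP_b4ec01_an
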